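import Pool.Agent.H3F.FANS

/-!
# The region of the normalised Vassiliev invariants of degree 2 and 3

`fishSet` is the set `S` of the problem, `fishLimits` the set `L` of the limits of points of `S`
that belong to diagrams whose number of crossings tends to infinity.  The closure of `S` is
`S ∪ L`, all but finitely many points of `S` are `ε`-close to `L`, and `L` is determined: with
`a = 8 x` and `b = 48 y` for a point `(x, y)`, it consists of the points with `-1/2 ≤ a ≤ 1`,
`|b| ≤ c` for some point `(a, c)` on one of the curves `Cur`, and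
`|b| ≥ √(2 a - 1) (1 + a)` if `a ≥ 1/2`.
-/

namespace Pool.Agent.Results.MP_175a65_gt.FishFull

open Pool.H3F

theorem result :
    closure fishSet = fishSet ∪ fishLimits ∧
    (∀ ε : ℝ, 0 < ε → {x : ℝ × ℝ | x ∈ fishSet ∧ ∀ y ∈ fishLimits, ε ≤ dist x y}.Finite) ∧
    (∀ x : ℝ × ℝ, x ∈ fishLimits ↔ -(1 / 2) ≤ 8 * x.1 ∧ 8 * x.1 ≤ 1 ∧
      (∃ c : ℝ, Cur (8 * x.1) c ∧ |48 * x.2| ≤ c) ∧
      (1 / 2 ≤ 8 * x.1 → √(2 * (8 * x.1) - 1) * (1 + 8 * x.1) ≤ |48 * x.2|)) :=
  fish_answer

end Pool.Agent.Results.MP_175a65_gt.FishFull
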